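import Pool.Agent.Helper93.TCU.Stmts
import Pool.Agent.Helper93.TCU.Bas

/-!
# M1: the mean number of surviving options in `M u`
-/

set_option autoImplicit false
set_option linter.unusedSectionVars false

namespace Pool.TCU

open Pool.TC Pool.TCM Pool.TCS Finset
open scoped Classical

private theorem m1mono {Ω : Type} [Fintype Ω] {F G : Ω → ℝ} (h : ∀ ω, F ω ≤ G ω) :
    mean F ≤ mean G := by
  unfold mean
  exact div_le_div_of_nonneg_right (sum_le_sum fun ω _ => h ω) (Nat.cast_nonneg _)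

private theorem m1sum {Ω ι : Type} [Fintype Ω] (A : Finset ι) (F : ι → Ω → ℝ) :
    mean (fun ω => ∑ i ∈ A, F i ω) = ∑ i ∈ A, mean (F i) := by
  unfold mean
  rw [sum_comm, sum_div]

section

variable {V κ : Type} [Fintype V] [Fintype κ] {S : CS V κ} {U : Finset V} {L : V → Finset κ}
  {D l m K : ℕ} {x : ℝ} {q : V → κ → ℝ} {Lam : ℝ} {o : V → κ}

/-- the value of `Psi1` -/
private theorem m1psi (h : Hyp S U L D l m K x q Lam) (hc : Cho S U L K o) {u : V} (hu : u ∈ U)
    {a : κ} (ha : a ∈ L u) :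
    Psi1 S U L l m K x q o u a =
      Ss S U m K o u a * (1 - bet m K * (KR S U o u (S.r u a)).card) *
        (1 - eR S U L l m K x (S.r u a)) * (1 - fK S U L l m K q u a) ∧
    ((KR S U o u (S.r u a)).card : ℝ) ≤ K := by
  have hP : ((KP S U o u a).card : ℝ) ≤ K := by exact_mod_cast hc.kP u hu a ha
  have hR : ((KR S U o u (S.r u a)).card : ℝ) ≤ K := by
    have h1 : (KR S U o u (S.r u a)).card ≤ K := by
      refine le_trans (card_le_card ?_) (hc.kR (S.r u a))
      intro w hw
      unfold KR at hw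
      obtain ⟨-, h1, -, h2⟩ := mem_filter.1 hw
      exact mem_filter.2 ⟨mem_univ _, h1, h2⟩
    exact_mod_cast h1
  refine ⟨?_, hR⟩
  have hn := npair_le S (KP S U o u a)
  have hn0 := npair_nonneg S (KP S U o u a)
  have hK := h.Kpos
  unfold Psi1 Ss
  generalize npair S (KP S U o u a) = t at hn hn0 ⊢
  have hP0 : (0 : ℝ) ≤ (KP S U o u a).card := Nat.cast_nonneg _
  have hR0 : (0 : ℝ) ≤ (KR S U o u (S.r u a)).card := Nat.cast_nonneg _
  generalize ((KP S U o u a).card : ℝ) = p at hP hP0 hn ⊢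
  generalize ((KR S U o u (S.r u a)).card : ℝ) = r at hR hR0 ⊢
  have hp2 : p ^ 2 ≤ (K : ℝ) ^ 2 := pow_le_pow_left₀ hP0 hP 2
  have hpr : p * r ≤ (K : ℝ) ^ 2 := by
    rw [pow_two]
    exact mul_le_mul hP hR hR0 (by linarith)
  have h1 : t / 2 + p * r ≤ 2 * (K : ℝ) ^ 2 := by nlinarith
  have h2 : r * t ≤ 2 * (K : ℝ) ^ 3 := by
    have h3 : t ≤ (K : ℝ) ^ 2 := by nlinarith [sq_nonneg (K : ℝ)]
    have h4 : r * t ≤ (K : ℝ) * (K : ℝ) ^ 2 := mul_le_mul hR h3 hn0 (by linarith)
    have h5 : (0 : ℝ) ≤ (K : ℝ) ^ 3 := by positivity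
    nlinarith
  rw [min_eq_left h1, min_eq_left h2]
  ring

/-- `gS` is a probability -/
private theorem m1gS (h : Hyp S U L D l m K x q Lam) {u : V} (hu : u ∈ U)
    {a : κ} (ha : a ∈ L u) (hK : ((KR S U o u (S.r u a)).card : ℝ) ≤ K)
    (s0 : 3 / 4 ≤ Ss S U m K o u a) (a2 : 3 / 4 ≤ A2 S U o m K u a)
    (a3 : 3 / 4 ≤ A3 S U o m K u a) :
    0 ≤ gS S U L l m K q o u a ∧ gS S U L l m K q o u a ≤ 1 := by
  have hb0 := h.bet_pos
  have hb1 := h.bet_le'
  have hbK := h.betK
  have f0 := h.fK_nonneg hu ha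
  have f1 := h.fK_le hu ha
  have hR0 : (0 : ℝ) ≤ (KR S U o u (S.r u a)).card := Nat.cast_nonneg _
  have hbR : bet m K * (KR S U o u (S.r u a)).card ≤ 1 / 8 := by nlinarith
  have n1 : 0 ≤ min 1 ((1 - bet m K) * Ss S U m K o u a / A2 S U o m K u a) := by
    apply le_min one_pos.le
    apply div_nonneg _ (by linarith)
    exact mul_nonneg (by linarith) (by linarith)
  have n2 : 0 ≤ min 1 ((1 - bet m K) * (1 - bet m K * (KR S U o u (S.r u a)).card) /
      A3 S U o m K u a) := by
    apply le_min one_pos.le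
    apply div_nonneg _ (by linarith)
    exact mul_nonneg (by linarith) (by linarith)
  have n3 := min_le_left 1 ((1 - bet m K) * Ss S U m K o u a / A2 S U o m K u a)
  have n4 := min_le_left 1 ((1 - bet m K) * (1 - bet m K * (KR S U o u (S.r u a)).card) /
      A3 S U o m K u a)
  unfold gS
  constructor
  · exact mul_nonneg (mul_nonneg (by linarith) n1) n2
  · exact mul_le_one₀ (mul_le_one₀ (by linarith) n1 n3) n2 n4

end

theorem thm_M1 (hRet : St_Ret) (hPK : St_PK) (hA1 : St_A1) (hInd : St_Ind) (hBad : St_Bad) :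
    St_M1 := by
  intro V κ _ _ S U L M D l m K x q Lam o h hc u hu
  obtain ⟨-, -, -, r4⟩ := hRet V κ S U L D l m K x q Lam o h hc
  have hN : 0 < m ^ (2 * K + 1) := Nat.pow_pos (by have := h.m192; omega)
  have hNr : (0 : ℝ) < (m : ℝ) ^ (2 * K + 1) := by exact_mod_cast hN
  have hb0 := h.bet_pos
  have hb1 := h.bet_le'
  have hbK := h.betK
  have hG : mean (G1 S U L M l m K x q o u) =
      ∑ a ∈ L u ∩ M u, mean (fun ω => if alive S U L l m K x q o ω u a then (1 : ℝ) else 0) := by
    rw [← m1sum]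
    refine congrArg _ (funext fun ω => ?_)
    unfold G1
    rw [card_filter]
    push_cast
    rfl
  rw [hG]
  have key : ∀ a ∈ L u ∩ M u, Psi1 S U L l m K x q o u a -
      (if Bad S U o u a then (1 : ℝ) else 0) ≤
      mean (fun ω => if alive S U L l m K x q o ω u a then (1 : ℝ) else 0) := by
    intro a ha'
    have ha : a ∈ L u := (mem_inter.1 ha').1
    obtain ⟨p1, p2, p3, p4, p5⟩ := hPK V κ S U L D l m K x q Lam o h hc u hu a ha
    have q1 := hA1 V κ S U L D l m K x q Lam o h hc u hu a ha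
    obtain ⟨hpsi, hR⟩ := m1psi h hc hu ha
    obtain ⟨g0, g1⟩ := m1gS h hu ha hR p2 p4 p5
    have f0 := h.fK_nonneg hu ha
    have f1 := h.fK_le hu ha
    have e0 := h.eR_nonneg (S.r u a)
    have e1 := h.eR_le (S.r u a)
    have hR0 : (0 : ℝ) ≤ (KR S U o u (S.r u a)).card := Nat.cast_nonneg _
    have hbR : bet m K * (KR S U o u (S.r u a)).card ≤ 1 / 8 := by nlinarith
    have hbR0 : 0 ≤ bet m K * (KR S U o u (S.r u a)).card := mul_nonneg hb0.le hR0
    -- the probability
    obtain ⟨tb, htb⟩ : ∃ t : ℕ, t = ⌊eR S U L l m K x (S.r u a) * (m : ℝ) ^ (2 * K + 1)⌋₊ :=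
      ⟨_, rfl⟩
    obtain ⟨tk, htk⟩ : ∃ t : ℕ, t = ⌊(1 - gS S U L l m K q o u a) * (m : ℝ) ^ (2 * K + 1)⌋₊ :=
      ⟨_, rfl⟩
    have tb1 : (tb : ℝ) ≤ eR S U L l m K x (S.r u a) * (m : ℝ) ^ (2 * K + 1) := by
      rw [htb]
      exact Nat.floor_le (mul_nonneg e0 hNr.le)
    have tk1 : (tk : ℝ) ≤ (1 - gS S U L l m K q o u a) * (m : ℝ) ^ (2 * K + 1) := by
      rw [htk]
      exact Nat.floor_le (mul_nonneg (by linarith) hNr.le)
    have tb2 : tb ≤ m ^ (2 * K + 1) := by
      have h1 : (tb : ℝ) ≤ ((m ^ (2 * K + 1) : ℕ) : ℝ) := by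
        push_cast
        nlinarith
      exact_mod_cast h1
    have tk2 : tk ≤ m ^ (2 * K + 1) := by
      have h1 : (tk : ℝ) ≤ ((m ^ (2 * K + 1) : ℕ) : ℝ) := by
        push_cast
        nlinarith
      exact_mod_cast h1
    have tb3 : (tb : ℝ) / (m : ℝ) ^ (2 * K + 1) ≤ eR S U L l m K x (S.r u a) := by
      rw [div_le_iff₀ hNr]
      exact tb1
    have tk3 : (tk : ℝ) / (m : ℝ) ^ (2 * K + 1) ≤ 1 - gS S U L l m K q o u a := by
      rw [div_le_iff₀ hNr]
      exact tk1
    have hfd : ∀ ω ω' : Lab V κ → Fin (m ^ (2 * K + 1)),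
        (∀ t, ω (Sum.inl t) = ω' (Sum.inl t)) →
        (if nP S U o m K ω u a ∧ nR S U o m K ω u a then (1 : ℝ) else 0) =
          if nP S U o m K ω' u a ∧ nR S U o m K ω' u a then (1 : ℝ) else 0 := by
      intro ω ω' hω
      have h1 : ∀ w, retv S U o m K ω w ↔ retv S U o m K ω' w := by
        intro w
        unfold retv actv goodv
        simp only [hω]
      have h2 : (nP S U o m K ω u a ∧ nR S U o m K ω u a) ↔
          (nP S U o m K ω' u a ∧ nR S U o m K ω' u a) := by
        unfold nP nR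
        simp only [h1]
      by_cases h3 : nP S U o m K ω u a ∧ nR S U o m K ω u a
      · rw [if_pos h3, if_pos (h2.1 h3)]
      · rw [if_neg h3, if_neg (fun h4 => h3 (h2.2 h4))]
    have h5 := r4 (fun ω => if nP S U o m K ω u a ∧ nR S U o m K ω u a then (1 : ℝ) else 0) hfd
      (S.r u a) (u, a) tb tk tb2 tk2
    have h6 : mean (fun ω => if alive S U L l m K x q o ω u a then (1 : ℝ) else 0) =
        mean (fun ω : Lab V κ → Fin (m ^ (2 * K + 1)) =>
          if ¬ (ω (Sum.inr (Sum.inl (S.r u a)))).val < tb ∧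
            ¬ (ω (Sum.inr (Sum.inr (u, a)))).val < tk
          then (if nP S U o m K ω u a ∧ nR S U o m K ω u a then (1 : ℝ) else 0) else 0) := by
      refine congrArg _ (funext fun ω => ?_)
      have h7 : alive S U L l m K x q o ω u a ↔
          (¬ (ω (Sum.inr (Sum.inl (S.r u a)))).val < tb ∧
            ¬ (ω (Sum.inr (Sum.inr (u, a)))).val < tk) ∧
          (nP S U o m K ω u a ∧ nR S U o m K ω u a) := by
        unfold alive bkv ekv
        rw [htb, htk]
        tauto
      by_cases h8 : ¬ (ω (Sum.inr (Sum.inl (S.r u a)))).val < tb ∧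
            ¬ (ω (Sum.inr (Sum.inr (u, a)))).val < tk
      · rw [if_pos h8]
        by_cases h9 : nP S U o m K ω u a ∧ nR S U o m K ω u a
        · rw [if_pos h9, if_pos (h7.2 ⟨h8, h9⟩)]
        · rw [if_neg h9, if_neg (fun h10 => h9 (h7.1 h10).2)]
      · rw [if_neg h8, if_neg (fun h10 => h8 (h7.1 h10).1)]
    rw [h6, h5]
    have hmean : mean (fun ω : Lab V κ → Fin (m ^ (2 * K + 1)) =>
        if nP S U o m K ω u a ∧ nR S U o m K ω u a then (1 : ℝ) else 0) =
        A1 S U o m K u a := rfl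
    rw [hmean]
    have a0 : 0 ≤ A1 S U o m K u a := by
      refine le_trans ?_ q1
      exact mul_nonneg (by linarith) (by linarith)
    have h10 : A1 S U o m K u a * (1 - eR S U L l m K x (S.r u a)) * gS S U L l m K q o u a ≤
        A1 S U o m K u a * (1 - (tb : ℝ) / (m : ℝ) ^ (2 * K + 1)) *
          (1 - (tk : ℝ) / (m : ℝ) ^ (2 * K + 1)) := by
      apply mul_le_mul _ (by linarith) g0
      · exact mul_nonneg a0 (by linarith)
      · exact mul_le_mul_of_nonneg_left (by linarith) a0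
    refine le_trans ?_ h10
    by_cases hB : Bad S U o u a
    · rw [if_pos hB, hpsi]
      have h11 : 0 ≤ A1 S U o m K u a * (1 - eR S U L l m K x (S.r u a)) *
          gS S U L l m K q o u a := mul_nonneg (mul_nonneg a0 (by linarith)) g0
      have h12 : Ss S U m K o u a * (1 - bet m K * (KR S U o u (S.r u a)).card) *
        (1 - eR S U L l m K x (S.r u a)) * (1 - fK S U L l m K q u a) ≤ 1 := by
        apply mul_le_one₀ _ (by linarith) (by linarith)
        apply mul_le_one₀ _ (by linarith) (by linarith)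
        exact mul_le_one₀ p3 (by linarith) (by linarith)
      linarith
    · rw [if_neg hB, sub_zero, hpsi]
      obtain ⟨i1, i2⟩ := hInd V κ S U L D l m K x q Lam o h hc u hu a ha hB
      have hgS : gS S U L l m K q o u a =
          (1 - fK S U L l m K q u a) * (Ss S U m K o u a / A0 S U o m K u a) := by
        unfold gS
        have hA0 : 0 < A0 S U o m K u a := by linarith
        have h1b : (1 - bet m K) ≠ 0 := by
          have : 0 < 1 - bet m K := by linarith
          exact this.ne'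
        rw [i1, mul_div_mul_left _ _ h1b, min_eq_right (by rw [div_le_one hA0]; exact p1), i2,
          div_self (by rw [← i2]; intro h0; rw [h0] at p5; linarith), min_self, mul_one]
      rw [hgS]
      have hA0 : 0 < A0 S U o m K u a := by linarith
      have h13 : Ss S U m K o u a * (1 - bet m K * (KR S U o u (S.r u a)).card) ≤
          A1 S U o m K u a * (Ss S U m K o u a / A0 S U o m K u a) := by
        rw [mul_div_assoc', le_div_iff₀ hA0]
        have := mul_le_mul_of_nonneg_left q1 (show 0 ≤ Ss S U m K o u a by linarith)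
        nlinarith
      have h14 : 0 ≤ (1 - eR S U L l m K x (S.r u a)) * (1 - fK S U L l m K q u a) :=
        mul_nonneg (by linarith) (by linarith)
      have h15 := mul_le_mul_of_nonneg_right h13 h14
      calc _ = Ss S U m K o u a * (1 - bet m K * (KR S U o u (S.r u a)).card) *
          ((1 - eR S U L l m K x (S.r u a)) * (1 - fK S U L l m K q u a)) := by ring
        _ ≤ _ := h15
        _ = _ := by ring
  have h1 := sum_le_sum key
  rw [sum_sub_distrib] at h1
  have h2 : (∑ a ∈ L u ∩ M u, if Bad S U o u a then (1 : ℝ) else 0) ≤ 10 * (K : ℝ) ^ 2 := by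
    have h3 := hBad V κ S U L D l m K x q Lam o h hc u hu
    rw [← Finset.sum_filter, sum_const, nsmul_eq_mul, mul_one]
    have h4 : ((L u ∩ M u).filter (fun a => Bad S U o u a)).card ≤ 10 * K ^ 2 := by
      refine le_trans (card_le_card ?_) h3
      intro a ha
      obtain ⟨h5, h6⟩ := mem_filter.1 ha
      exact mem_filter.2 ⟨(mem_inter.1 h5).1, h6⟩
    exact_mod_cast h4
  linarith

end Pool.TCU
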